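import Mathlib
import Pool.Agent.H38.SGDefs
import Pool.Agent.H38.SGBase

/-!
The unbounded numbers of types of voters are exactly the `t ≥ 4`.
-/

namespace Pool.Agent.Results.MP_2bafa0_co.UnboundedIffFour

open Pool.Agent.H38.SG

/-- A number `t` is unbounded (there is a sequence `(G_k)_{k ≥ 2}` of complete simple games with
exactly `t` types of voters, such that `G_k` is `k`-trade robust but not `(k+1)`-trade robust) if and
only if `t ≥ 4`. -/
theorem result (t : ℕ) : Unbounded t ↔ 4 ≤ t :=
  unbounded_iff t

end Pool.Agent.Results.MP_2bafa0_co.UnboundedIffFour
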